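import Pool.Agent.R609.DerivB

/-!
# Ranks on bounded Baire class 1 functions: restriction monotonicity is not needed

Every rank on the bounded Baire class 1 functions on Polish spaces with the properties (P1)-(P4) is
equivalent to the separation rank. The property (P5), monotonicity with respect to restrictions to
Polish subspaces, is used in the known proof for the restriction of a function `f` to the subspace
`{f ≤ p} ∪ {q ≤ f}`. Here it is replaced by the multiplication with the characteristic function of a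
set `A ⊆ {f ≤ p} ∪ {q ≤ f}` which is closed up to one point, and which is so large that the sets
`A ∩ {f ≤ p}` and `A ∩ {q ≤ f}` are as hard to separate as the sets `{f ≤ p}` and `{q ≤ f}`.
-/

set_option autoImplicit false

open Set Topology Order Filter
open Ordinal (omega0)
open scoped Ordinal

namespace Pool.Agent.Results.MP_12cd8a_lc.RankUnique

variable {X : Type} [TopologicalSpace X]

/-- `F` is a decreasing sequence of closed sets of length `lam` with `F 0 = X` which is continuous: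
`F η` is the intersection of the earlier sets for limit ordinals `η ≤ lam`, where `F η` is empty
for all `η ≥ lam`. -/
structure ClosedSequence (F : Ordinal.{0} → Set X) (lam : Ordinal.{0}) : Prop where
  zero : F 0 = Set.univ
  closed : ∀ η, IsClosed (F η)
  anti : ∀ η θ, η ≤ θ → F θ ⊆ F η
  limit : ∀ η, IsSuccLimit η → F η = ⋂ θ ∈ Set.Iio η, F θ
  empty : ∀ η, lam ≤ η → F η = ∅

/-- The transfinite difference of the sequence `F`: the union of the sets `F η \ F (η + 1)` over all
even ordinals `η = 2 ξ`. -/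
def transfiniteDifference (F : Ordinal.{0} → Set X) : Set X :=
  {x | ∃ ξ, x ∈ F (2 * ξ) \ F (2 * ξ + 1)}

/-- `α₁(B, C)`: the least length of a continuous decreasing sequence of closed sets whose
transfinite difference contains `B` and is disjoint from `C`. -/
noncomputable def sepRank (B C : Set X) : Ordinal.{0} :=
  sInf {lam | ∃ F : Ordinal.{0} → Set X, ClosedSequence F lam ∧
    B ⊆ transfiniteDifference F ∧ Disjoint (transfiniteDifference F) C}

/-- `α₁(f)`: the supremum of `α₁({f ≤ p}, {q ≤ f})` over all rational numbers `p < q`. -/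
noncomputable def alphaOne (f : X → ℝ) : Ordinal.{0} :=
  ⨆ pq : {pq : ℚ × ℚ // pq.1 < pq.2}, sepRank {x | f x ≤ pq.1.1} {x | (pq.1.2 : ℝ) ≤ f x}

/-- `f` is a bounded function of Baire class 1: the preimages of the closed sets are `G_δ` (so the
preimages of the open sets are `F_σ`). -/
def BoundedBaireOne (f : X → ℝ) : Prop :=
  (∀ C : Set ℝ, IsClosed C → IsGδ (f ⁻¹' C)) ∧ ∃ M : ℝ, ∀ x, |f x| ≤ M

/-- `a ≲ b`: for all `1 ≤ η < ω₁`, if `b ≤ ω ^ η` then `a ≤ ω ^ η`. -/
def Below (a b : Ordinal.{0}) : Prop := ∀ η : Ordinal.{0}, 1 ≤ η → η < Ordinal.omega 1 →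
  b ≤ ω ^ η → a ≤ ω ^ η

/-- `a ≈ b`. -/
def Similar (a b : Ordinal.{0}) : Prop := Below a b ∧ Below b a

/-- A rank: a countable ordinal for every bounded Baire class 1 function on every Polish space. -/
def IsRank (ρ : (X : Type) → [TopologicalSpace X] → (X → ℝ) → Ordinal.{0}) : Prop :=
  ∀ (X : Type) [TopologicalSpace X] [PolishSpace X] (f : X → ℝ), BoundedBaireOne f →
    ρ X f < Ordinal.omega 1

/-- Property (P1): `ρ(χ_A) ≈ α₁(A, X \ A)` for all sets `A` which are `G_δ` and `F_σ`. -/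
def P1 (ρ : (X : Type) → [TopologicalSpace X] → (X → ℝ) → Ordinal.{0}) : Prop :=
  ∀ (X : Type) [TopologicalSpace X] [PolishSpace X] (A : Set X), IsGδ A → IsGδ Aᶜ →
    Similar (ρ X (A.indicator fun _ => 1)) (sepRank A Aᶜ)

/-- Property (P2): `ρ(c f) ≈ ρ(f)` for `c ≠ 0` and `ρ(f + g) ≲ max (ρ(f), ρ(g))`. -/
def P2 (ρ : (X : Type) → [TopologicalSpace X] → (X → ℝ) → Ordinal.{0}) : Prop :=
  ∀ (X : Type) [TopologicalSpace X] [PolishSpace X] (f g : X → ℝ), BoundedBaireOne f →
    BoundedBaireOne g → (∀ c : ℝ, c ≠ 0 → Similar (ρ X fun x => c * f x) (ρ X f)) ∧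
      Below (ρ X fun x => f x + g x) (max (ρ X f) (ρ X g))

/-- Property (P3): if `f n` converges uniformly to `f` then `ρ(f) ≲ sup ρ(f n)`. -/
def P3 (ρ : (X : Type) → [TopologicalSpace X] → (X → ℝ) → Ordinal.{0}) : Prop :=
  ∀ (X : Type) [TopologicalSpace X] [PolishSpace X] (f : X → ℝ) (g : ℕ → X → ℝ),
    BoundedBaireOne f → (∀ n, BoundedBaireOne (g n)) → TendstoUniformly g f atTop →
      Below (ρ X f) (⨆ n, ρ X (g n))

/-- Property (P4): `ρ(h ∘ f) ≲ ρ(f)` for all Lipschitz functions `h`. -/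
def P4 (ρ : (X : Type) → [TopologicalSpace X] → (X → ℝ) → Ordinal.{0}) : Prop :=
  ∀ (X : Type) [TopologicalSpace X] [PolishSpace X] (f : X → ℝ) (h : ℝ → ℝ), BoundedBaireOne f →
    (∃ K, LipschitzWith K h) → Below (ρ X fun x => h (f x)) (ρ X f)

open Pool.Agent.R609.Rank

theorem closedSequence_iff {F : Ordinal.{0} → Set X} {lam : Ordinal.{0}} :
    ClosedSequence F lam ↔ IsChainOf F lam :=
  ⟨fun h => ⟨h.zero, h.closed, h.anti, h.limit, h.empty⟩,
    fun h => ⟨h.zero, h.closed, h.anti, h.limit, h.empty⟩⟩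

/-- The separation rank is at most `ω ^ η` if the derivative vanishes at `ω ^ η`. -/
theorem sepRank_le_of {B C : Set X} {η : Ordinal.{0}} (hη : 1 ≤ η) (h : D B C (ω ^ η) = ∅) :
    sepRank B C ≤ ω ^ η := by
  obtain ⟨h1, h2, h3⟩ := chain_of_D_empty (limit_opow hη) h
  exact csInf_le' ⟨chainD B C, closedSequence_iff.2 h1, h2, h3⟩

theorem D_empty_of_le [PolishSpace X] {B C : Set X} (hB : IsGδ B) (hC : IsGδ C)
    (hBC : Disjoint B C) {lam : Ordinal.{0}} (h : sepRank B C ≤ lam) : D B C lam = ∅ := by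
  obtain ⟨ξ, hξ⟩ := exists_D_empty hB hC hBC
  have hne : {lam | ∃ F : Ordinal.{0} → Set X, ClosedSequence F lam ∧
      B ⊆ transfiniteDifference F ∧ Disjoint (transfiniteDifference F) C}.Nonempty := by
    have h1 : D B C (ω ^ (ξ + 1)) = ∅ := by
      refine subset_empty_iff.1 ((D_anti ?_).trans hξ.subset)
      have h2 : ξ ≤ ω ^ ξ := Ordinal.right_le_opow ξ Ordinal.one_lt_omega0
      refine h2.trans ?_
      exact Ordinal.opow_le_opow_right Ordinal.omega0_pos (Order.lt_add_one_iff.2 le_rfl).le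
    obtain ⟨h2, h3, h4⟩ := chain_of_D_empty (limit_opow (e := ξ + 1) (by simp)) h1
    exact ⟨ω ^ (ξ + 1), chainD B C, closedSequence_iff.2 h2, h3, h4⟩
  obtain ⟨F, hF, h2, h3⟩ := csInf_mem hne
  have h4 := D_empty_of_chain (closedSequence_iff.1 hF) h2 h3
  exact subset_empty_iff.1 ((D_anti h).trans h4.subset)

theorem countable_Iio {η : Ordinal.{0}} (h : η < Ordinal.omega 1) :
    (Set.Iio (ω ^ η : Ordinal.{0})).Countable := by
  rw [Cardinal.countable_iff_lt_aleph_one, Cardinal.mk_Iio_ordinal]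
  have h1 : η.card < Cardinal.aleph 1 := by
    rw [← Cardinal.lt_ord, Cardinal.ord_aleph]
    exact h
  have h2 : η.card ≤ Cardinal.aleph0 := by
    rw [← Cardinal.succ_aleph0] at h1
    exact Order.lt_succ_iff.1 h1
  have h3 := Ordinal.card_opow_le ω η
  rw [Ordinal.card_omega0, max_eq_left h2, max_self] at h3
  calc Cardinal.lift (ω ^ η : Ordinal.{0}).card ≤ Cardinal.lift Cardinal.aleph0 :=
        Cardinal.lift_le.2 h3
    _ = Cardinal.aleph0 := Cardinal.lift_aleph0
    _ < Cardinal.aleph 1 := by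
        rw [← Cardinal.succ_aleph0]
        exact Order.lt_succ _

/-! ### Functions of Baire class 1 -/

theorem isGδ_pair {f g : X → ℝ} (hf : ∀ C : Set ℝ, IsClosed C → IsGδ (f ⁻¹' C))
    (hg : ∀ C : Set ℝ, IsClosed C → IsGδ (g ⁻¹' C)) {C : Set (ℝ × ℝ)} (hC : IsClosed C) :
    IsGδ ((fun x => (f x, g x)) ⁻¹' C) := by
  set b := TopologicalSpace.countableBasis ℝ with hb
  set S : Set (Set ℝ × Set ℝ) := {p | p.1 ∈ b ∧ p.2 ∈ b ∧ p.1 ×ˢ p.2 ⊆ Cᶜ} with hS
  have hSc : S.Countable := by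
    refine ((TopologicalSpace.countable_countableBasis ℝ).prod
      (TopologicalSpace.countable_countableBasis ℝ)).mono ?_
    rintro p ⟨h1, h2, -⟩
    exact ⟨h1, h2⟩
  have e : (fun x => (f x, g x)) ⁻¹' C = ⋂ p ∈ S, (f ⁻¹' p.1ᶜ ∪ g ⁻¹' p.2ᶜ) := by
    ext x
    rw [mem_iInter₂]
    constructor
    · rintro hx p ⟨-, -, h3⟩
      by_contra hc
      simp only [mem_union, mem_preimage, mem_compl_iff, not_or, not_not] at hc
      exact h3 (⟨hc.1, hc.2⟩ : (f x, g x) ∈ p.1 ×ˢ p.2) hx
    · intro hx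
      by_contra hc
      obtain ⟨u, v, hu, hv, hxu, hxv, huv⟩ := isOpen_prod_iff.1 hC.isOpen_compl (f x) (g x) hc
      obtain ⟨u', hu', hxu', huu'⟩ :=
        (TopologicalSpace.isBasis_countableBasis ℝ).exists_subset_of_mem_open hxu hu
      obtain ⟨v', hv', hxv', hvv'⟩ :=
        (TopologicalSpace.isBasis_countableBasis ℝ).exists_subset_of_mem_open hxv hv
      rcases hx (u', v') ⟨hu', hv', (Set.prod_mono huu' hvv').trans huv⟩ with h | h
      · exact h hxu'
      · exact h hxv'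
  rw [e]
  refine IsGδ.biInter hSc fun p hp => ?_
  have o1 := (TopologicalSpace.isBasis_countableBasis ℝ).isOpen hp.1
  have o2 := (TopologicalSpace.isBasis_countableBasis ℝ).isOpen hp.2.1
  exact (hf _ o1.isClosed_compl).union (hg _ o2.isClosed_compl)

theorem bbo_add {f g : X → ℝ} (hf : BoundedBaireOne f) (hg : BoundedBaireOne g) :
    BoundedBaireOne fun x => f x + g x := by
  refine ⟨fun C hC => ?_, ?_⟩
  · have hC' : IsClosed {p : ℝ × ℝ | p.1 + p.2 ∈ C} := hC.preimage (continuous_fst.add continuous_snd)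
    exact isGδ_pair hf.1 hg.1 hC'
  · obtain ⟨M, hM⟩ := hf.2
    obtain ⟨N, hN⟩ := hg.2
    exact ⟨M + N, fun x => (abs_add_le _ _).trans (add_le_add (hM x) (hN x))⟩

theorem bbo_lip {f : X → ℝ} (hf : BoundedBaireOne f) {h : ℝ → ℝ} (hh : ∃ K, LipschitzWith K h) :
    BoundedBaireOne fun x => h (f x) := by
  obtain ⟨K, hK⟩ := hh
  refine ⟨fun C hC => hf.1 _ (hC.preimage hK.continuous), ?_⟩
  obtain ⟨M, hM⟩ := hf.2
  refine ⟨|h 0| + K * M, fun x => ?_⟩
  have h1 := hK.dist_le_mul (f x) 0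
  rw [Real.dist_eq, Real.dist_eq, sub_zero] at h1
  have h2 : |h (f x)| ≤ |h 0| + |h (f x) - h 0| := by
    have := abs_add_le (h 0) (h (f x) - h 0)
    rwa [add_sub_cancel] at this
  have h3 : (K : ℝ) * |f x| ≤ K * M := mul_le_mul_of_nonneg_left (hM x) K.2
  linarith

theorem bbo_mul {f : X → ℝ} (hf : BoundedBaireOne f) (c : ℝ) :
    BoundedBaireOne fun x => c * f x :=
  bbo_lip hf (h := fun t => c * t) ⟨⟨|c|, abs_nonneg c⟩, LipschitzWith.of_dist_le_mul fun x y => by
    rw [Real.dist_eq, Real.dist_eq, ← mul_sub, abs_mul]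
    rfl⟩

theorem bbo_indicator {A : Set X} (h1 : IsGδ A) (h2 : IsGδ Aᶜ) :
    BoundedBaireOne (A.indicator fun _ => (1 : ℝ)) := by
  classical
  refine ⟨fun C _ => ?_, 1, fun x => ?_⟩
  · have h3 : (A.indicator fun _ => (1 : ℝ)) ⁻¹' C =
        (if (1 : ℝ) ∈ C then A else ∅) ∪ (if (0 : ℝ) ∈ C then Aᶜ else ∅) := by
      ext x
      by_cases hx : x ∈ A <;> by_cases a : (1 : ℝ) ∈ C <;> by_cases b : (0 : ℝ) ∈ C <;>
        simp [hx, a, b]
    rw [h3]
    refine IsGδ.union ?_ ?_
    · split_ifs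
      · exact h1
      · exact IsGδ.empty
    · split_ifs
      · exact h2
      · exact IsGδ.empty
  · by_cases hx : x ∈ A <;> simp [hx]

/-! ### The lower bound -/

theorem three_le {η : Ordinal.{0}} (hη : 1 ≤ η) : (3 : Ordinal.{0}) ≤ ω ^ η := by
  have h1 : (3 : Ordinal.{0}) < ω := by exact_mod_cast Ordinal.natCast_lt_omega0 3
  have h2 : (ω : Ordinal.{0}) ^ (1 : Ordinal.{0}) ≤ ω ^ η :=
    Ordinal.opow_le_opow_right Ordinal.omega0_pos hη
  rw [Ordinal.opow_one] at h2
  exact h1.le.trans h2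

theorem lower {ρ : (X : Type) → [TopologicalSpace X] → (X → ℝ) → Ordinal.{0}} (h1 : P1 ρ)
    (h2 : P2 ρ) (h4 : P4 ρ) [PolishSpace X] {f : X → ℝ} (hf : BoundedBaireOne f)
    {η : Ordinal.{0}} (hη : 1 ≤ η) (hη' : η < Ordinal.omega 1) (hρ : ρ X f ≤ ω ^ η) {p q : ℝ}
    (hpq : p < q) : D {x | f x ≤ p} {x | q ≤ f x} (ω ^ η) = ∅ := by
  letI := TopologicalSpace.metrizableSpaceMetric X
  set B := {x | f x ≤ p} with hB
  set C := {x | q ≤ f x} with hC
  by_contra hne
  obtain ⟨y, hy⟩ := nonempty_iff_ne_empty.2 hne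
  obtain ⟨A, hA1, hA2, hA3⟩ := witness_limit B C _ (limit_opow hη) (countable_Iio hη') hy
  obtain ⟨gA, gA'⟩ := isGδ_small hA2
  have gB : IsGδ B := hf.1 _ isClosed_Iic
  have gC : IsGδ C := hf.1 _ isClosed_Ici
  have hBC : Disjoint B C := by
    rw [Set.disjoint_left]
    intro x hx hx'
    exact absurd (lt_of_le_of_lt hx hpq) (not_lt.2 hx')
  -- the characteristic function of `A`
  have r1 : ρ X (A.indicator fun _ => 1) ≤ ω ^ η := by
    refine (h1 X A gA gA').1 η hη hη' (sepRank_le_of hη ?_)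
    exact subset_empty_iff.1 ((D_anti (three_le hη)).trans (D_small hA2).subset)
  -- the truncated function
  set h : ℝ → ℝ := fun t => max 0 (min 1 ((q - t) / (q - p))) with hh
  have hqp : 0 < q - p := sub_pos.2 hpq
  have hlip : ∃ K, LipschitzWith K h := by
    have l1 : LipschitzWith ⟨1 / (q - p), by positivity⟩ fun t : ℝ => (q - t) / (q - p) := by
      refine LipschitzWith.of_dist_le_mul fun x y => ?_
      rw [Real.dist_eq, Real.dist_eq, ← sub_div, abs_div, abs_of_pos hqp]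
      have : |q - x - (q - y)| = |x - y| := by
        rw [abs_sub_comm x y]
        congr 1
        ring
      rw [this]
      change _ ≤ 1 / (q - p) * _
      rw [div_eq_mul_one_div, mul_comm]
    exact ⟨_, (l1.const_min 1).const_max 0⟩
  have r2 : ρ X (fun x => h (f x)) ≤ ω ^ η := h4 X f h hf hlip η hη hη' hρ
  have b1 := bbo_lip hf hlip
  have b2 := bbo_indicator gA gA'
  have r3 : ρ X (fun x => h (f x) + (A.indicator fun _ => 1) x) ≤ ω ^ η :=
    (h2 X _ _ b1 b2).2 η hη hη' (max_le r2 r1)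
  have hlip2 : ∃ K, LipschitzWith K fun t : ℝ => max 0 (t - 1) := by
    have l1 : LipschitzWith 1 fun t : ℝ => t - 1 := by
      refine LipschitzWith.of_dist_le_mul fun x y => ?_
      rw [Real.dist_eq, Real.dist_eq]
      simp
    exact ⟨_, l1.const_max 0⟩
  have r4 : ρ X (fun x => max 0 (h (f x) + (A.indicator fun _ => 1) x - 1)) ≤ ω ^ η :=
    h4 X _ (fun t => max 0 (t - 1)) (bbo_add b1 b2) hlip2 η hη hη' r3
  have e : (fun x => max 0 (h (f x) + (A.indicator fun _ => (1 : ℝ)) x - 1)) =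
      (A ∩ B).indicator fun _ => 1 := by
    classical
    funext x
    by_cases hxA : x ∈ A
    · rw [indicator_of_mem hxA, add_sub_cancel_right]
      rcases hA1 hxA with hx | hx
      · have hm : x ∈ A ∩ B := ⟨hxA, hx⟩
        rw [indicator_of_mem hm]
        have h5 : 1 ≤ (q - f x) / (q - p) := by
          rw [le_div_iff₀ hqp]
          have : f x ≤ p := hx
          linarith
        rw [hh]
        simp only
        rw [min_eq_left h5]
        norm_num
      · have hm : x ∉ A ∩ B := fun h' => Set.disjoint_left.1 hBC h'.2 hx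
        rw [indicator_of_notMem hm]
        have h5 : (q - f x) / (q - p) ≤ 0 := by
          apply div_nonpos_of_nonpos_of_nonneg _ hqp.le
          have : q ≤ f x := hx
          linarith
        rw [hh]
        simp only
        rw [min_eq_right (h5.trans zero_le_one), max_eq_left h5, max_self]
    · have hm : x ∉ A ∩ B := fun h' => hxA h'.1
      rw [indicator_of_notMem hxA, indicator_of_notMem hm, add_zero]
      have h5 : h (f x) ≤ 1 := by
        rw [hh]
        exact max_le zero_le_one (min_le_left _ _)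
      rw [max_eq_left (by linarith)]
  rw [e] at r4
  have g1 : IsGδ (A ∩ B) := gA.inter gB
  have g2 : IsGδ (A ∩ B)ᶜ := by
    have : (A ∩ B)ᶜ = Aᶜ ∪ (A ∩ C) := by
      ext x
      simp only [mem_compl_iff, mem_inter_iff, mem_union, not_and]
      constructor
      · intro h'
        by_cases hxA : x ∈ A
        · rcases hA1 hxA with hx | hx
          · exact absurd hx (h' hxA)
          · exact Or.inr ⟨hxA, hx⟩
        · exact Or.inl hxA
      · rintro (h' | h') hxA hxB
        · exact h' hxA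
        · exact Set.disjoint_left.1 hBC hxB h'.2
    rw [this]
    exact gA'.union (gA.inter gC)
  have r5 := (h1 X (A ∩ B) g1 g2).2 η hη hη' r4
  have r6 := D_empty_of_le g1 g2 disjoint_compl_right r5
  obtain ⟨z, hz⟩ := hA3
  have r7 := D_mono (B := B ∩ A) (C := C ∩ A) (B' := A ∩ B) (C' := (A ∩ B)ᶜ)
    (fun x hx => ⟨hx.2, hx.1⟩)
    (fun x hx h' => Set.disjoint_left.1 hBC h'.2 hx.1) (ω ^ η) hz
  rw [r6] at r7
  exact r7

/-! ### The upper bound -/

theorem count_bound (K : ℕ) (a : ℝ) (ha : 0 ≤ a) (haK : a ≤ K) (s : ℕ → ℝ)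
    (h0 : ∀ i, s i = 0 ∨ s i = 1) (h1 : ∀ i : ℕ, a ≤ i → s i = 1)
    (h2 : ∀ i : ℕ, (i : ℝ) + 1 ≤ a → s i = 0) :
    |(∑ i ∈ Finset.range K, s i) - (K - a)| ≤ 1 := by
  have e : ∀ m : ℕ, m ≤ K → (∑ i ∈ Finset.Ico m K, (1 : ℝ)) = K - m := by
    intro m hm
    rw [Finset.sum_const, Nat.card_Ico, nsmul_eq_mul, mul_one, Nat.cast_sub hm]
  have hs0 : ∀ i, 0 ≤ s i := fun i => by rcases h0 i with h | h <;> rw [h]; norm_num
  have hs1 : ∀ i, s i ≤ 1 := fun i => by rcases h0 i with h | h <;> rw [h]; norm_num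
  have hc : ⌈a⌉₊ ≤ K := Nat.ceil_le.2 haK
  have hf : ⌊a⌋₊ ≤ K := (Nat.floor_le_ceil a).trans hc
  have lo : (K : ℝ) - ⌈a⌉₊ ≤ ∑ i ∈ Finset.range K, s i := by
    rw [← e _ hc]
    calc ∑ i ∈ Finset.Ico ⌈a⌉₊ K, (1 : ℝ) = ∑ i ∈ Finset.Ico ⌈a⌉₊ K, s i := by
          refine Finset.sum_congr rfl fun i hi => ?_
          rw [h1 i (Nat.ceil_le.1 (Finset.mem_Ico.1 hi).1)]
      _ ≤ ∑ i ∈ Finset.range K, s i := by
          refine Finset.sum_le_sum_of_subset_of_nonneg ?_ fun i _ _ => hs0 i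
          intro i hi
          exact Finset.mem_range.2 (Finset.mem_Ico.1 hi).2
  have hi : ∑ i ∈ Finset.range K, s i ≤ K - ⌊a⌋₊ := by
    rw [← e _ hf, Finset.range_eq_Ico, ← Finset.sum_Ico_consecutive _ (Nat.zero_le _) hf]
    have z : ∑ i ∈ Finset.Ico 0 ⌊a⌋₊, s i = 0 := by
      refine Finset.sum_eq_zero fun i hi => h2 i ?_
      have h3 : i + 1 ≤ ⌊a⌋₊ := (Finset.mem_Ico.1 hi).2
      have h4 := (Nat.le_floor_iff ha).1 h3
      push_cast at h4
      exact h4
    rw [z, zero_add]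
    exact Finset.sum_le_sum fun i _ => hs1 i
  have c1 := Nat.ceil_lt_add_one ha
  have c2 := Nat.lt_floor_add_one a
  rw [abs_le]
  constructor <;> linarith

theorem upper {ρ : (X : Type) → [TopologicalSpace X] → (X → ℝ) → Ordinal.{0}} (h1 : P1 ρ)
    (h2 : P2 ρ) (h3 : P3 ρ) [PolishSpace X] {f : X → ℝ} (hf : BoundedBaireOne f)
    {η : Ordinal.{0}} (hη : 1 ≤ η) (hη' : η < Ordinal.omega 1)
    (hD : ∀ p q : ℚ, p < q → D {x | f x ≤ p} {x | (q : ℝ) ≤ f x} (ω ^ η) = ∅) :
    ρ X f ≤ ω ^ η := by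
  classical
  have hsep : ∀ p q : ℚ, p < q → ∃ S : Set X, IsGδ S ∧ IsGδ Sᶜ ∧ {x | f x ≤ p} ⊆ S ∧
      Disjoint S {x | (q : ℝ) ≤ f x} ∧ ρ X (S.indicator fun _ => 1) ≤ ω ^ η := by
    intro p q hpq
    obtain ⟨a1, a2, a3⟩ := chain_of_D_empty (limit_opow hη) (hD p q hpq)
    obtain ⟨g1, g2⟩ := isGδ_diff a1 (countable_Iio hη')
    refine ⟨_, g1, g2, a2, a3, (h1 X _ g1 g2).1 η hη hη' ?_⟩
    exact csInf_le' ⟨_, closedSequence_iff.2 a1, Subset.rfl, disjoint_compl_right⟩
  obtain ⟨M0, hM0⟩ := hf.2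
  obtain ⟨M, hM⟩ := exists_nat_gt (max M0 0)
  have hM1 : 0 < M := by
    have : (0 : ℝ) < M := (le_max_right M0 0).trans_lt hM
    exact_mod_cast this
  have hMf : ∀ x, |f x| ≤ M := fun x => (hM0 x).trans ((le_max_left M0 0).trans hM.le)
  -- the approximations
  have happ : ∀ N : ℕ, ∃ g : X → ℝ, BoundedBaireOne g ∧ ρ X g ≤ ω ^ η ∧
      ∀ x, |g x - f x| ≤ 1 / ((N : ℝ) + 1) := by
    intro N
    set K := 2 * M * (N + 1) with hK
    set pt : ℕ → ℚ := fun i => -(M : ℚ) + i / (N + 1) with hpt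
    have hlt : ∀ i, pt i < pt (i + 1) := by
      intro i
      simp only [hpt]
      push_cast
      have : (0 : ℚ) < (N : ℚ) + 1 := by positivity
      rw [add_lt_add_iff_left, div_lt_div_iff_of_pos_right this]
      linarith
    choose S hS1 hS2 hS3 hS4 hS5 using fun i => hsep (pt i) (pt (i + 1)) (hlt i)
    have hbi : ∀ i, BoundedBaireOne ((S i).indicator fun _ => (1 : ℝ)) := fun i =>
      bbo_indicator (hS1 i) (hS2 i)
    have hc : (-1 / ((N : ℝ) + 1)) ≠ 0 := by
      apply div_ne_zero (by norm_num)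
      positivity
    have hsum : ∀ k : ℕ, BoundedBaireOne (fun x => (M : ℝ) + ∑ i ∈ Finset.range k,
        (-1 / ((N : ℝ) + 1)) * (S i).indicator (fun _ => (1 : ℝ)) x) ∧
        ρ X (fun x => (M : ℝ) + ∑ i ∈ Finset.range k,
          (-1 / ((N : ℝ) + 1)) * (S i).indicator (fun _ => (1 : ℝ)) x) ≤ ω ^ η := by
      intro k
      induction k with
      | zero =>
        have e : (fun x : X => (M : ℝ) + ∑ i ∈ Finset.range 0,
            (-1 / ((N : ℝ) + 1)) * (S i).indicator (fun _ => (1 : ℝ)) x) =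
            fun x => (M : ℝ) * (Set.univ : Set X).indicator (fun _ => (1 : ℝ)) x := by
          funext x
          simp
        rw [e]
        have gu : IsGδ (Set.univ : Set X) := IsGδ.univ
        have gu' : IsGδ (Set.univ : Set X)ᶜ := by rw [compl_univ]; exact IsGδ.empty
        have bu := bbo_indicator gu gu'
        refine ⟨bbo_mul bu _, ?_⟩
        have hMne : (M : ℝ) ≠ 0 := by exact_mod_cast hM1.ne'
        refine ((h2 X _ _ bu bu).1 M hMne).1 η hη hη' ((h1 X _ gu gu').1 η hη hη' ?_)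
        refine sepRank_le_of hη ?_
        have h5 : D (Set.univ : Set X) Set.univᶜ 1 = ∅ := by
          rw [← zero_add (1 : Ordinal.{0}), D_succ, compl_univ, inter_empty, closure_empty,
            inter_empty]
        have h6 : (1 : Ordinal.{0}) ≤ ω ^ η := by
          refine le_trans ?_ (three_le hη)
          norm_num
        exact subset_empty_iff.1 ((D_anti h6).trans h5.subset)
      | succ k ih =>
        have e : (fun x : X => (M : ℝ) + ∑ i ∈ Finset.range (k + 1),
            (-1 / ((N : ℝ) + 1)) * (S i).indicator (fun _ => (1 : ℝ)) x) =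
            fun x => ((M : ℝ) + ∑ i ∈ Finset.range k,
            (-1 / ((N : ℝ) + 1)) * (S i).indicator (fun _ => (1 : ℝ)) x) +
            (-1 / ((N : ℝ) + 1)) * (S k).indicator (fun _ => (1 : ℝ)) x := by
          funext x
          rw [Finset.sum_range_succ]
          ring
        rw [e]
        have b3 := bbo_mul (hbi k) (-1 / ((N : ℝ) + 1))
        refine ⟨bbo_add ih.1 b3, (h2 X _ _ ih.1 b3).2 η hη hη' (max_le ih.2 ?_)⟩
        exact ((h2 X _ _ (hbi k) (hbi k)).1 _ hc).1 η hη hη' (hS5 k)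
    refine ⟨_, (hsum K).1, (hsum K).2, fun x => ?_⟩
    have hN : (0 : ℝ) < (N : ℝ) + 1 := by positivity
    have hfx := abs_le.1 (hMf x)
    set a := ((N : ℝ) + 1) * (f x + M) with ha
    have hKr : (K : ℝ) = 2 * M * (N + 1) := by rw [hK]; push_cast; ring
    have key := count_bound K a (by rw [ha]; apply mul_nonneg hN.le; linarith)
      (by rw [ha, hKr]; nlinarith) (fun i => (S i).indicator (fun _ => (1 : ℝ)) x)
      (fun i => by by_cases hx : x ∈ S i <;> simp [hx])
      (fun i hi => by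
        refine indicator_of_mem (hS3 i ?_) _
        change f x ≤ ((pt i : ℚ) : ℝ)
        simp only [hpt]
        push_cast
        have : f x + M ≤ i / ((N : ℝ) + 1) := by
          rw [le_div_iff₀ hN, mul_comm]
          exact hi
        linarith)
      (fun i hi => by
        refine indicator_of_notMem (fun hx => Set.disjoint_left.1 (hS4 i) hx ?_) _
        change ((pt (i + 1) : ℚ) : ℝ) ≤ f x
        simp only [hpt]
        push_cast
        have : ((i : ℝ) + 1) / ((N : ℝ) + 1) ≤ f x + M := by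
          rw [div_le_iff₀ hN, mul_comm]
          exact hi
        linarith)
    rw [← Finset.mul_sum]
    set c := ∑ i ∈ Finset.range K, (S i).indicator (fun _ => (1 : ℝ)) x with hcdef
    have e2 : (M : ℝ) + -1 / ((N : ℝ) + 1) * c - f x = -((c - (K - a)) / ((N : ℝ) + 1)) := by
      rw [hKr, ha]
      field_simp
      ring
    rw [e2, abs_neg, abs_div, abs_of_pos hN]
    exact div_le_div_of_nonneg_right key hN.le
  choose g hg1 hg2 hg3 using happ
  have hunif : TendstoUniformly g f atTop := by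
    rw [Metric.tendstoUniformly_iff]
    intro ε hε
    obtain ⟨N, hN⟩ := exists_nat_one_div_lt hε
    filter_upwards [eventually_ge_atTop N] with n hn x
    rw [dist_comm, Real.dist_eq]
    refine (hg3 n x).trans_lt (lt_of_le_of_lt ?_ hN)
    apply one_div_le_one_div_of_le (by positivity)
    have : (N : ℝ) ≤ n := by exact_mod_cast hn
    linarith
  exact h3 X f g hf hg1 hunif η hη hη' (ciSup_le' hg2)

/-- Every rank on the bounded Baire class 1 functions on Polish spaces with the properties (P1)-(P4)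
is equivalent to the separation rank. -/
theorem result (ρ : (X : Type) → [TopologicalSpace X] → (X → ℝ) → Ordinal.{0}) (h0 : IsRank ρ)
    (h1 : P1 ρ) (h2 : P2 ρ) (h3 : P3 ρ) (h4 : P4 ρ) :
    ∀ (X : Type) [TopologicalSpace X] [PolishSpace X] (f : X → ℝ), BoundedBaireOne f →
      Similar (ρ X f) (alphaOne f) := by
  intro X _ _ f hf
  constructor
  · intro η hη hη' hle
    refine upper h1 h2 h3 hf hη hη' fun p q hpq => ?_
    have h5 : sepRank {x | f x ≤ p} {x | (q : ℝ) ≤ f x} ≤ alphaOne f :=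
      le_ciSup (f := fun pq : {pq : ℚ × ℚ // pq.1 < pq.2} =>
        sepRank {x | f x ≤ pq.1.1} {x | (pq.1.2 : ℝ) ≤ f x}) (Ordinal.bddAbove_of_small) ⟨(p, q), hpq⟩
    refine D_empty_of_le (hf.1 _ isClosed_Iic) (hf.1 _ isClosed_Ici) ?_ (h5.trans hle)
    rw [Set.disjoint_left]
    intro x hx hx'
    have : (p : ℝ) < q := by exact_mod_cast hpq
    exact absurd (lt_of_le_of_lt hx this) (not_lt.2 hx')
  · intro η hη hη' hle
    refine ciSup_le' fun pq => sepRank_le_of hη ?_
    exact lower h1 h2 h4 hf hη hη' hle (by exact_mod_cast pq.2)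

end Pool.Agent.Results.MP_12cd8a_lc.RankUnique
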